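import Pool.Agent.helper64.NQ.Spec

/-!
# nq, row GN1: irreducible projective characters of abelian groups
-/

set_option autoImplicit false

namespace Pool.Agent.NQ

open Pool.Agent.helper58.DC Pool.Agent.DI Pool.Agent.DR

open Classical in
theorem GN1 (hKSC : KSC_stmt) : GN1_stmt := by
  intro Q _ _ N hcomm β hβ σ k hP
  obtain ⟨hoff, ⟨V, _, _, _, S, hS1, hSm, hk, hσ⟩, hnorm⟩ := hP
  have hcardpos : 0 < Nat.card N := Nat.card_pos
  -- the norm in terms of traces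
  have hnorm' : ∑ᶠ n ∈ (N : Set Q), LinearMap.trace ℂ V (S n) * LinearMap.trace ℂ V (S n⁻¹) *
      ((β n n⁻¹ : ℂˣ) : ℂ)⁻¹ = Nat.card N := by
    rw [← hnorm]
    apply finsum_mem_congr rfl
    intro n hn
    rw [hσ n hn, hσ n⁻¹ (inv_mem hn)]
  -- the commutation rule
  have hcm : ∀ y ∈ N, ∀ z ∈ N, S y * S z = ((om β y z : ℂˣ) : ℂ) • (S z * S y) := by
    intro y hy z hz
    rw [hSm y hy z hz, hSm z hz y hy, smul_smul, hcomm z hz y hy, ← Units.val_mul]
    unfold om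
    rw [inv_mul_cancel_right]
  -- part one
  have hβi : ∀ y, β y y⁻¹ = β y⁻¹ y := by
    intro y
    have h := hβ.1 y y⁻¹ y
    rw [mul_inv_cancel, inv_mul_cancel, hβ.2.1, hβ.2.2, mul_one, one_mul] at h
    exact h
  have part1 : ∀ z ∈ N, z ∉ Rd N (om β) → σ z = 0 := by
    intro z hz hzR
    have hex : ∃ y ∈ N, om β y z ≠ 1 := by
      by_contra hne
      push Not at hne
      exact hzR ⟨hz, hne⟩
    obtain ⟨y, hy, hyz⟩ := hex
    have h1 : LinearMap.trace ℂ V (S y * (S z * S y⁻¹)) =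
        ((β y⁻¹ y : ℂˣ) : ℂ) * LinearMap.trace ℂ V (S z) := by
      rw [LinearMap.trace_mul_comm, mul_assoc, hSm y⁻¹ (inv_mem hy) y hy, inv_mul_cancel, hS1,
        mul_smul_comm, mul_one, map_smul, smul_eq_mul]
    have h2 : LinearMap.trace ℂ V (S y * (S z * S y⁻¹)) =
        ((om β y z : ℂˣ) : ℂ) * (((β y y⁻¹ : ℂˣ) : ℂ) * LinearMap.trace ℂ V (S z)) := by
      rw [← mul_assoc, hcm y hy z hz, smul_mul_assoc, mul_assoc, hSm y hy y⁻¹ (inv_mem hy),
        mul_inv_cancel, hS1, mul_smul_comm, mul_one, map_smul, map_smul, smul_eq_mul, smul_eq_mul]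
    rw [h1, hβi] at h2
    have h3 : (1 - ((om β y z : ℂˣ) : ℂ)) *
        (((β y⁻¹ y : ℂˣ) : ℂ) * LinearMap.trace ℂ V (S z)) = 0 := by
      rw [sub_mul, one_mul, ← h2, sub_self]
    rw [hσ z hz]
    rcases mul_eq_zero.1 h3 with h4 | h4
    · exfalso
      apply hyz
      apply Units.ext
      rw [Units.val_one]
      exact (sub_eq_zero.1 h4).symm
    · rcases mul_eq_zero.1 h4 with h5 | h5
      · exact absurd h5 (Units.ne_zero _)
      · exact h5
  -- scalars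
  have hsc : ∀ n ∈ Rd N (om β), ∃ c : ℂ, S n = c • (1 : Module.End ℂ V) := by
    intro n hn
    apply hKSC Q N β hβ V S hS1 hSm hnorm' (S n)
    intro n' hn'
    rw [hcm n' hn' n hn.1, hn.2 n' hn', Units.val_one, one_smul]
  let P : Q → Prop := fun n => n ∈ N ∧ ∃ c : ℂ, S n = c • (1 : Module.End ℂ V)
  have hRP : ∀ n ∈ Rd N (om β), P n := fun n hn => ⟨hn.1, hsc n hn⟩
  have hPc : ∀ n, P n → ∃ c : ℂ, S n = c • (1 : Module.End ℂ V) := fun n hn => hn.2
  choose! c hc using hPc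
  have htr : ∀ n, P n → LinearMap.trace ℂ V (S n) = k * c n := by
    intro n hn
    rw [hc n hn, map_smul, LinearMap.trace_one, hk, smul_eq_mul, mul_comm]
  have hk0 : k ≠ 0 := by
    rintro rfl
    have h0 : ∑ᶠ n ∈ (N : Set Q), LinearMap.trace ℂ V (S n) * LinearMap.trace ℂ V (S n⁻¹) *
        ((β n n⁻¹ : ℂˣ) : ℂ)⁻¹ = 0 := by
      rw [← finsum_mem_zero (s := (N : Set Q))]
      apply finsum_mem_congr rfl
      intro n _
      have hV : Subsingleton V := Module.finrank_zero_iff.1 hk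
      have hSn : S n = 0 := by
        apply LinearMap.ext
        intro v
        exact Subsingleton.elim _ _
      rw [hSn, map_zero, zero_mul, zero_mul]
    rw [h0] at hnorm'
    have : (Nat.card N : ℂ) ≠ 0 := Nat.cast_ne_zero.2 hcardpos.ne'
    exact this hnorm'.symm
  have hnt : Nontrivial V := by
    apply Module.nontrivial_of_finrank_pos (R := ℂ)
    rw [hk]
    exact Nat.pos_of_ne_zero hk0
  have hone : (1 : Module.End ℂ V) ≠ 0 := one_ne_zero
  have hinj : ∀ a b : ℂ, a • (1 : Module.End ℂ V) = b • (1 : Module.End ℂ V) → a = b :=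
    fun a b h => smul_left_injective ℂ hone h
  have hPm : ∀ n n', P n → P n' → P (n * n') ∧ c n * c n' = ((β n n' : ℂˣ) : ℂ) * c (n * n') := by
    intro n n' hn hn'
    have h := hSm n hn.1 n' hn'.1
    rw [hc n hn, hc n' hn', smul_mul_smul_comm, one_mul] at h
    have hPP : P (n * n') := by
      refine ⟨mul_mem hn.1 hn'.1, ((β n n' : ℂˣ) : ℂ)⁻¹ * (c n * c n'), ?_⟩
      rw [mul_smul, h, smul_smul, inv_mul_cancel₀ (Units.ne_zero _), one_smul]
    refine ⟨hPP, ?_⟩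
    apply hinj
    rw [h, hc (n * n') hPP, smul_smul]
  have hP1 : P 1 := ⟨one_mem N, 1, by rw [hS1, one_smul]⟩
  have hc1 : c 1 = 1 := by
    apply hinj
    rw [← hc 1 hP1, hS1, one_smul]
  have hPi : ∀ n, P n → P n⁻¹ ∧ c n * c n⁻¹ = ((β n n⁻¹ : ℂˣ) : ℂ) := by
    intro n hn
    have h := hSm n hn.1 n⁻¹ (inv_mem hn.1)
    rw [mul_inv_cancel, hS1, hc n hn, smul_mul_assoc, one_mul] at h
    have hcn : c n ≠ 0 := by
      intro h0
      rw [h0, zero_smul] at h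
      have h1 : ((β n n⁻¹ : ℂˣ) : ℂ) = 0 := by
        apply hinj
        rw [← h, zero_smul]
      exact Units.ne_zero _ h1
    have hPP : P n⁻¹ := by
      refine ⟨inv_mem hn.1, (c n)⁻¹ * ((β n n⁻¹ : ℂˣ) : ℂ), ?_⟩
      rw [mul_smul, ← h, smul_smul, inv_mul_cancel₀ hcn, one_smul]
    refine ⟨hPP, ?_⟩
    rw [(hPm n n⁻¹ hn hPP).2, mul_inv_cancel, hc1, mul_one]
  have hc0 : ∀ n, P n → c n ≠ 0 := by
    intro n hn h
    have := (hPi n hn).2
    rw [h, zero_mul] at this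
    exact Units.ne_zero _ this.symm
  refine ⟨part1, ⟨fun n => if h : P n then Units.mk0 (c n) (hc0 n h) else 1, ?_, ?_⟩, ?_⟩
  · intro n hn
    beta_reduce
    rw [dif_pos (hRP n hn), Units.val_mk0, hσ n hn.1, htr n (hRP n hn)]
  · intro n hn n' hn'
    beta_reduce
    rw [dif_pos (hRP n hn), dif_pos (hRP n' hn'), dif_pos (hPm n n' (hRP n hn) (hRP n' hn')).1]
    apply Units.ext
    simp only [Units.val_mul, Units.val_mk0]
    exact (hPm n n' (hRP n hn) (hRP n' hn')).2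
  · -- the norm
    have h1 : ∑ᶠ n ∈ (N : Set Q), σ n * σ n⁻¹ * ((β n n⁻¹ : ℂˣ) : ℂ)⁻¹ =
        ∑ᶠ n ∈ Rd N (om β), σ n * σ n⁻¹ * ((β n n⁻¹ : ℂˣ) : ℂ)⁻¹ := by
      apply finsum_mem_inter_support_eq'
      intro x hx
      constructor
      · intro hxN
        by_contra hxR
        apply hx
        show σ x * σ x⁻¹ * ((β x x⁻¹ : ℂˣ) : ℂ)⁻¹ = 0
        rw [part1 x hxN hxR, zero_mul, zero_mul]
      · intro hxR
        exact hxR.1
    have h2 : ∑ᶠ n ∈ Rd N (om β), σ n * σ n⁻¹ * ((β n n⁻¹ : ℂˣ) : ℂ)⁻¹ =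
        ∑ᶠ n ∈ Rd N (om β), ((k ^ 2 : ℕ) : ℂ) := by
      apply finsum_mem_congr rfl
      intro n hn
      have hPn := hRP n hn
      rw [hσ n hn.1, hσ n⁻¹ (inv_mem hn.1), htr n hPn, htr n⁻¹ (hPi n hPn).1]
      have h3 := (hPi n hPn).2
      calc (k : ℂ) * c n * (k * c n⁻¹) * ((β n n⁻¹ : ℂˣ) : ℂ)⁻¹
          = k ^ 2 * ((c n * c n⁻¹) * ((β n n⁻¹ : ℂˣ) : ℂ)⁻¹) := by ring
        _ = ((k ^ 2 : ℕ) : ℂ) := by
          rw [h3, mul_inv_cancel₀ (Units.ne_zero _), mul_one]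
          push_cast
          rfl
    rw [h1, h2, finsum_mem_eq_finite_toFinset_sum _ (Set.toFinite (Rd N (om β))),
      Finset.sum_const, nsmul_eq_mul] at hnorm
    have h4 : ((Set.toFinite (Rd N (om β))).toFinset.card : ℂ) = (Nat.card (Rd N (om β)) : ℂ) := by
      congr 1
      rw [← Set.ncard_eq_toFinset_card]
      rfl
    rw [h4, mul_comm] at hnorm
    exact_mod_cast hnorm

end Pool.Agent.NQ
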